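import Mathlib
import Pool.Agent.H408BCM.Stmts

/-! Task D: the ring `k[x,y,z]/(z^7 - x^7 - y^7)` is a good algebra over `k[x,y]`. -/

namespace Pool.Agent.H408BCM.TDG

open MvPolynomial Pool.Agent.H408BCM

/-- the coordinatewise division -/
theorem key {k : Type} [Field k] (p : ℕ) (f g : A k)
    (h : (X 1 : A k) ^ p * f = (X 0 : A k) ^ p * g) : (X 0 : A k) ^ p ∣ f := by
  have hp : Prime (X 0 : A k) := MvPolynomial.X_prime
  have h1 : ¬ (X 0 : A k) ∣ (X 1 : A k) ^ p := by
    intro h2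
    have h3 := hp.dvd_of_dvd_pow h2
    rw [MvPolynomial.X_dvd_X] at h3
    exact absurd h3 (by decide)
  exact hp.pow_dvd_of_dvd_mul_left p h1 ⟨g, h⟩

theorem good_of_basis {k : Type} [Field k] {B : Type} [CommRing B] [Algebra (A k) B]
    {ι : Type} [Finite ι] (e : Module.Basis ι (A k) B) (p : ℕ) (hp : 0 < p)
    (ψ : B →+* k) (hψ : ∀ f : A k, ψ (algebraMap (A k) B f) = constantCoeff f) :
    Good (A k) B (X 0 ^ p) (X 1 ^ p) := by
  refine ⟨?_, ?_, ?_⟩
  · intro f b hf hb
    apply e.repr.injective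
    ext i : 1
    have h1 : (e.repr (f • b)) i = 0 := by rw [hb]; simp
    rw [map_smul, Finsupp.smul_apply, smul_eq_mul] at h1
    rw [map_zero, Finsupp.zero_apply]
    exact (mul_eq_zero.mp h1).resolve_left hf
  · intro b c hbc
    have h1 : ∀ i, ∃ d : A k, e.repr b i = (X 0 : A k) ^ p * d := by
      intro i
      have h2 : (X 1 : A k) ^ p * e.repr b i = (X 0 : A k) ^ p * e.repr c i := by
        have h3 := congrArg (fun u => e.repr u i) hbc
        simpa only [map_smul, Finsupp.smul_apply, smul_eq_mul] using h3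
      exact key p _ _ h2
    choose d hd using h1
    refine ⟨e.equivFun.symm d, ?_⟩
    apply e.repr.injective
    ext i : 1
    rw [map_smul, Finsupp.smul_apply, smul_eq_mul, hd i]
    congr 1
    rw [← Module.Basis.equivFun_apply, LinearEquiv.apply_symm_apply]
  · rintro ⟨b, c, h⟩
    have h1 := congrArg ψ h
    rw [map_one, map_add, Algebra.smul_def, Algebra.smul_def, map_mul, map_mul, hψ, hψ] at h1
    simp [hp.ne'] at h1

theorem taskDG : ∀ (k : Type) [Field k] (n p : ℕ), 0 < n → 0 < p →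
    ∃ (B : Type) (_ : CommRing B) (_ : Algebra (A k) B) (z : B),
      z ^ n = algebraMap (A k) B (X 0 ^ n + X 1 ^ n) ∧
      Good (A k) B (X 0 ^ p) (X 1 ^ p) := by
  intro k _ n p hn hp
  let g : Polynomial (A k) := Polynomial.X ^ n - Polynomial.C (X 0 ^ n + X 1 ^ n)
  have hg : g.Monic := Polynomial.monic_X_pow_sub_C _ hn.ne'
  have hz : (AdjoinRoot.root g) ^ n = algebraMap (A k) (AdjoinRoot g) (X 0 ^ n + X 1 ^ n) := by
    have h1 : AdjoinRoot.mk g g = 0 := AdjoinRoot.mk_self
    have h2 : AdjoinRoot.mk g g = (AdjoinRoot.root g) ^ n -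
        algebraMap (A k) (AdjoinRoot g) (X 0 ^ n + X 1 ^ n) := by
      simp only [g, map_sub, map_pow, AdjoinRoot.mk_X, AdjoinRoot.mk_C]
      rfl
    rw [h2] at h1
    exact sub_eq_zero.mp h1
  have hlift : g.eval₂ (constantCoeff : A k →+* k) 0 = 0 := by
    rw [Polynomial.eval₂_sub, Polynomial.eval₂_pow, Polynomial.eval₂_X, Polynomial.eval₂_C,
      map_add, map_pow, map_pow, MvPolynomial.constantCoeff_X, MvPolynomial.constantCoeff_X]
    simp [hn.ne']
  refine ⟨AdjoinRoot g, inferInstance, inferInstance, AdjoinRoot.root g, hz, ?_⟩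
  refine good_of_basis (AdjoinRoot.powerBasis' hg).basis p hp
    (AdjoinRoot.lift (constantCoeff : A k →+* k) 0 hlift) ?_
  intro f
  rw [AdjoinRoot.algebraMap_eq, AdjoinRoot.lift_of]

end Pool.Agent.H408BCM.TDG
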