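import Pool.Agent.H408BCM.Stmts
import Pool.Agent.H408BCM.MG

namespace Pool.Agent.H408BCM.FG

open MvPolynomial Filter

noncomputable instance instCommRingR (k : Type) [Field k] : CommRing (R k) := inferInstance

/-- The ideal of relations of the finitely generated `R(k)`-algebra `S(k)`; `n = 4m+3`. -/
noncomputable abbrev relS (m w : ℕ) (k : Type) [Field k] : Ideal (MvPolynomial (Fin 4) (R k)) :=
  Ideal.span {X 0 ^ (4 * m + 3) - C (rx k 0 ^ (4 * m + 3) + rx k 1 ^ (4 * m + 3)),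
    C (rx k 0 ^ (3 * w) * rx k 1 ^ (3 * w)) -
      (X 1 * C (rx k 0 ^ (4 * w)) + X 2 * C (rx k 1 ^ (4 * w)) + X 3 * X 0 ^ (4 * w))}

/-- `S(k) = R(k)[z,a,b,c] / (z^n - (x^n+y^n), x^(3w) y^(3w) - (a x^(4w) + b y^(4w) + c z^(4w)))`,
`n = 4m+3`. -/
abbrev S (m w : ℕ) (k : Type) [Field k] : Type := MvPolynomial (Fin 4) (R k) ⧸ relS m w k

/-- There is a big Cohen-Macaulay `R(k)`-algebra `B` and a homomorphism `S(k) → B` of
`R(k)`-algebras. -/
def MapsToBCM (m w : ℕ) (k : Type) [Field k] : Prop :=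
  ∃ (B : Type) (_ : CommRing B) (_ : Algebra (R k) B),
    IsBCM (R k) B ∧ Nonempty (S m w k →ₐ[R k] B)

/-- general form of task N -/
def TaskNG : Prop := ∀ (n w k p : ℕ), p.Prime → 4 * w * p = n * (4 * k + 1) + 1 → 6 * w < n →
    ∀ (B : Type) [CommRing B] [CharP B p] (x y z a b c : B), z ^ n = x ^ n + y ^ n →
    x ^ (3 * w) * y ^ (3 * w) = a * x ^ (4 * w) + b * y ^ (4 * w) + c * z ^ (4 * w) →
    ∃ u v : B, x ^ (4 * w * p - 1) * y ^ (4 * w * p - 1) =
      u * x ^ (4 * w * p) + v * y ^ (4 * w * p)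

theorem pos_part (hS : TaskS) (hC : TaskC) (hT : TaskT) (hL : TaskL)
    (hU : TaskU) (m w : ℕ) (hw : 6 * w < 4 * m + 3) (hco : Nat.Coprime w (4 * m + 3)) :
    MapsToBCM m w ℂ := by
  obtain ⟨B, i1, i2, hG, z, a, b, c, h1, h2⟩ := MG.taskMG hU m w hw hco
  obtain ⟨B', j1, j2, φ, hφ, hG'⟩ := hL ℂ B hG
  refine ⟨B', j1, j2, hT hS hC ℂ B' hG', ?_⟩
  have h1' := congrArg φ h1
  have h2' := congrArg φ h2
  rw [map_pow, hφ] at h1'
  rw [hφ, map_add φ, map_add φ, map_mul φ, map_mul φ, map_mul φ, hφ, hφ, map_pow φ] at h2'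
  refine ⟨Ideal.Quotient.liftₐ (relS m w ℂ)
    (MvPolynomial.aeval (R := R ℂ) (fun i : Fin 4 => (![φ z, φ a, φ b, φ c] : Fin 4 → B') i)) ?_⟩
  intro f hf
  have hle : relS m w ℂ ≤ RingHom.ker (MvPolynomial.aeval (R := R ℂ)
      (fun i : Fin 4 => (![φ z, φ a, φ b, φ c] : Fin 4 → B') i)).toRingHom := by
    rw [Ideal.span_le]
    rintro g (rfl | rfl)
    · simp only [SetLike.mem_coe, RingHom.mem_ker, AlgHom.toRingHom_eq_coe, RingHom.coe_coe]
      rw [map_sub, map_pow, MvPolynomial.aeval_X, ← MvPolynomial.algebraMap_eq,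
        AlgHom.commutes]
      simp only [Matrix.cons_val_zero]
      rw [h1']
      simp only [map_add, map_pow]
      ring
    · simp only [SetLike.mem_coe, RingHom.mem_ker, AlgHom.toRingHom_eq_coe, RingHom.coe_coe]
      simp only [map_sub, map_add, map_mul, map_pow, MvPolynomial.aeval_X,
        MvPolynomial.aeval_C] at h2' ⊢
      rw [h2']
      simp
  exact hle hf

theorem neg_part (hN : TaskNG) (hS : TaskS) (hC : TaskC) (m w : ℕ) (hw : 6 * w < 4 * m + 3)
    (p kk : ℕ) (hp : p.Prime) (hpw : w * p = (4 * m + 3) * kk + m + 1)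
    (k : Type) [Field k] [CharP k p] : ¬ MapsToBCM m w k := by
  rintro ⟨B, i1, i2, hB, ⟨g⟩⟩
  have hsop := (hS k).1
  have hreg := (hC (R k) B (rx k 0) (rx k 1)).1 (hB _ hsop)
  obtain ⟨hx, hcol, hproper⟩ := hreg
  have hnt : Nontrivial B := by
    refine ⟨⟨1, 0, fun h => hproper ⟨0, 0, ?_⟩⟩⟩
    rw [h]; simp
  haveI : CharP B p := by
    have hinj : Function.Injective (((algebraMap (R k) B).comp (algebraMap (A k) (R k))).comp
      (MvPolynomial.C : k →+* A k)) := RingHom.injective _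
    exact charP_of_injective_ringHom hinj p
  set x : B := algebraMap (R k) B (rx k 0) with hxdef
  set y : B := algebraMap (R k) B (rx k 1) with hydef
  set q : MvPolynomial (Fin 4) (R k) →ₐ[R k] B := g.comp (Ideal.Quotient.mkₐ (R k) (relS m w k))
    with hq
  have hker : ∀ f ∈ relS m w k, q f = 0 := by
    intro f hf
    rw [hq, AlgHom.comp_apply, Ideal.Quotient.mkₐ_eq_mk, Ideal.Quotient.eq_zero_iff_mem.2 hf,
      map_zero]
  have hqC : ∀ r : R k, q (C r) = algebraMap (R k) B r := by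
    intro r
    rw [← MvPolynomial.algebraMap_eq, AlgHom.commutes]
  have e1 := hker _ (Ideal.subset_span (Set.mem_insert _ _))
  have e2 := hker _ (Ideal.subset_span (Set.mem_insert_of_mem _ (Set.mem_singleton _)))
  simp only [map_sub, map_add, map_mul, map_pow, hqC] at e1 e2
  have e1' : q (X 0) ^ (4 * m + 3) = x ^ (4 * m + 3) + y ^ (4 * m + 3) := by
    have := sub_eq_zero.1 e1
    rw [this]
  have e2' : x ^ (3 * w) * y ^ (3 * w) = q (X 1) * x ^ (4 * w) + q (X 2) * y ^ (4 * w) +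
      q (X 3) * q (X 0) ^ (4 * w) := by
    have := sub_eq_zero.1 e2
    rw [← this]
  have hpw' : 4 * w * p = (4 * m + 3) * (4 * kk + 1) + 1 := by
    calc 4 * w * p = 4 * (w * p) := by ring
      _ = (4 * m + 3) * (4 * kk + 1) + 1 := by rw [hpw]; ring
  obtain ⟨u, v, huv⟩ := hN (4 * m + 3) w kk p hp hpw' hw B x y (q (X 0)) _ _ _ e1' e2'
  -- regularity gives a contradiction
  have hx' : ∀ b : B, x * b = 0 → b = 0 := by
    intro b hb
    apply hx
    rw [Algebra.smul_def]
    exact hb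
  have hxn : ∀ (n : ℕ) (b : B), x ^ n * b = 0 → b = 0 := by
    intro n
    induction n with
    | zero => intro b hb; simpa using hb
    | succ n ih =>
      intro b hb
      apply hx'
      apply ih
      rw [← mul_assoc, ← pow_succ]
      exact hb
  have hcol' : ∀ b c : B, y * b = x * c → ∃ d, b = x * d := by
    intro b c hbc
    obtain ⟨d, hd⟩ := hcol b c (by rw [Algebra.smul_def, Algebra.smul_def]; exact hbc)
    exact ⟨d, by rw [hd, Algebra.smul_def]⟩
  have hcoln : ∀ (n : ℕ) (b c : B), y * b = x ^ n * c → ∃ d, b = x ^ n * d := by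
    intro n
    induction n with
    | zero => intro b c _; exact ⟨b, by simp⟩
    | succ n ih =>
      intro b c hbc
      obtain ⟨d, hd⟩ := hcol' b (x ^ n * c) (by rw [hbc]; ring)
      have h3 : y * d = x ^ n * c := by
        have : x * (y * d - x ^ n * c) = 0 := by
          have h4 : x * (y * d) = x ^ (n + 1) * c := by
            rw [← hbc, hd]; ring
          rw [mul_sub, h4]; ring
        exact sub_eq_zero.1 (hx' _ this)
      obtain ⟨e, he⟩ := ih d c h3
      exact ⟨e, by rw [hd, he]; ring⟩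
  have hcolnm : ∀ (m n : ℕ) (b c : B), y ^ m * b = x ^ n * c → ∃ d, b = x ^ n * d := by
    intro m n
    induction m with
    | zero => intro b c h; exact ⟨c, by simpa using h⟩
    | succ m ih =>
      intro b c h
      obtain ⟨d, hd⟩ := hcoln n (y ^ m * b) c (by rw [← h]; ring)
      exact ih b d hd
  obtain ⟨n, hn⟩ : ∃ n, 4 * w * p = n + 1 := ⟨(4 * m + 3) * (4 * kk + 1), hpw'⟩
  rw [hn, show n + 1 - 1 = n from rfl] at huv
  -- y^n (x^n - v y) = u x^(n+1)
  have s1 : y ^ n * (x ^ n - v * y) = x ^ (n + 1) * u := by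
    have : x ^ n * y ^ n - v * y ^ (n + 1) = u * x ^ (n + 1) := by rw [huv]; ring
    calc y ^ n * (x ^ n - v * y) = x ^ n * y ^ n - v * y ^ (n + 1) := by ring
      _ = x ^ (n + 1) * u := by rw [this]; ring
  obtain ⟨d, hd⟩ := hcolnm n (n + 1) _ _ s1
  -- x^n - v y = x^(n+1) d, so v y in x^n B
  have s2 : y ^ 1 * v = x ^ n * (1 - x * d) := by
    have : v * y = x ^ n - x ^ (n + 1) * d := by rw [← hd]; ring
    calc y ^ 1 * v = v * y := by ring
      _ = x ^ n * (1 - x * d) := by rw [this]; ring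
  obtain ⟨e, he⟩ := hcolnm 1 n _ _ s2
  have s3 : x ^ n * (1 - x * d - y * e) = 0 := by
    have : y * (x ^ n * e) = x ^ n * (1 - x * d) := by rw [← he, ← s2]; ring
    calc x ^ n * (1 - x * d - y * e) = x ^ n * (1 - x * d) - y * (x ^ n * e) := by ring
      _ = 0 := by rw [this]; ring
  have s4 := hxn n _ s3
  apply hproper
  refine ⟨d, e, ?_⟩
  rw [Algebra.smul_def, Algebra.smul_def]
  have : (1 : B) = x * d + y * e := by
    have h5 : (1 : B) - (x * d + y * e) = 0 := by rw [← s4]; ring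
    exact sub_eq_zero.1 h5
  exact this

end Pool.Agent.H408BCM.FG
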