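import Mathlib

set_option autoImplicit false

namespace Pool.Agent.H408BCM

open Finset

namespace NG

/-- the weight polynomial -/
noncomputable def P (k : ℕ) : Polynomial ℤ :=
  (∏ a ∈ range (2 * k), (Polynomial.X + Polynomial.C ((a : ℤ) + 1))) *
    ∏ a ∈ range (2 * k), (Polynomial.C (4 * (k : ℤ) - a) - Polynomial.X)

theorem P_deg (k : ℕ) : (P k).natDegree < 4 * k + 1 := by
  unfold P
  have h1 : (∏ a ∈ range (2 * k), (Polynomial.X + Polynomial.C ((a : ℤ) + 1))).natDegree ≤
      2 * k := by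
    refine (Polynomial.natDegree_prod_le _ _).trans ?_
    refine (sum_le_sum (g := fun _ => 1) fun a _ => ?_).trans (by simp)
    exact (Polynomial.natDegree_X_add_C _).le
  have h2 : (∏ a ∈ range (2 * k), (Polynomial.C (4 * (k : ℤ) - a) -
      (Polynomial.X : Polynomial ℤ))).natDegree ≤ 2 * k := by
    refine (Polynomial.natDegree_prod_le _ _).trans ?_
    refine (sum_le_sum (g := fun _ => 1) fun a _ => ?_).trans (by simp)
    refine (Polynomial.natDegree_sub_le _ _).trans ?_
    rw [Polynomial.natDegree_C, Polynomial.natDegree_X]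
    norm_num
  have := Polynomial.natDegree_mul_le_of_le h1 h2
  omega

theorem P_eval (k : ℕ) (t : ℤ) : (P k).eval t =
    (∏ a ∈ range (2 * k), (t + ((a : ℤ) + 1))) * ∏ a ∈ range (2 * k), (4 * (k : ℤ) - a - t) := by
  unfold P
  rw [Polynomial.eval_mul, Polynomial.eval_prod, Polynomial.eval_prod]
  simp

theorem P_zero_neg (k : ℕ) (t : ℤ) (h1 : t < 0) (h2 : -(2 * (k : ℤ)) ≤ t) : (P k).eval t = 0 := by
  rw [P_eval]
  have : ∏ a ∈ range (2 * k), (t + ((a : ℤ) + 1)) = 0 := by
    refine prod_eq_zero (i := (-t - 1).toNat) (mem_range.2 (by omega)) ?_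
    have : (((-t - 1).toNat : ℕ) : ℤ) = -t - 1 := Int.toNat_of_nonneg (by omega)
    rw [this]; ring
  rw [this, zero_mul]

theorem P_zero_pos (k : ℕ) (t : ℤ) (h1 : 2 * (k : ℤ) < t) (h2 : t ≤ 4 * (k : ℤ)) :
    (P k).eval t = 0 := by
  rw [P_eval]
  have : ∏ a ∈ range (2 * k), (4 * (k : ℤ) - a - t) = 0 := by
    refine prod_eq_zero (i := (4 * (k : ℤ) - t).toNat) (mem_range.2 (by omega)) ?_
    have : (((4 * (k : ℤ) - t).toNat : ℕ) : ℤ) = 4 * (k : ℤ) - t := Int.toNat_of_nonneg (by omega)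
    rw [this]; ring
  rw [this, mul_zero]

theorem P_mid (k p : ℕ) (hp : p.Prime) (hk : 6 * k < p) : ¬ (p : ℤ) ∣ (P k).eval (k : ℤ) := by
  have hpi : Prime (p : ℤ) := Nat.prime_iff_prime_int.1 hp
  rw [P_eval]
  intro h
  rcases hpi.dvd_or_dvd h with h | h
  · obtain ⟨a, ha, hd⟩ := (Prime.dvd_finsetProd_iff hpi _).1 h
    have ha' := mem_range.1 ha
    have h3 := Int.le_of_dvd (by positivity) hd
    omega
  · obtain ⟨a, ha, hd⟩ := (Prime.dvd_finsetProd_iff hpi _).1 h
    have ha' := mem_range.1 ha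
    have h3 := Int.le_of_dvd (by omega) hd
    omega

/-- the coefficients of the multiplier -/
noncomputable def g (k i : ℕ) : ℤ := (-1) ^ i * (P k).eval (i : ℤ)

theorem h_zero (k j : ℕ) (h1 : 2 * k + 1 ≤ j) (h2 : j ≤ 4 * k) :
    ∑ i ∈ range (2 * k + 1), g k i * ((4 * k + 1).choose (j - i) : ℤ) = 0 := by
  have hd : (fwdDiff (1 : ℤ))^[4 * k + 1] (fun t => (P k).eval t) = 0 :=
    Polynomial.fwdDiff_iter_eq_zero_of_degree_lt (P_deg k)
  have h3 := congrFun hd ((j : ℤ) - (4 * k + 1))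
  rw [fwdDiff_iter_eq_sum_shift, Pi.zero_apply] at h3
  have h4 : ∑ r ∈ Ico (4 * k + 1 - j) (4 * k + 1 - j + (2 * k + 1)),
      (((-1 : ℤ) ^ (4 * k + 1 - r) * ((4 * k + 1).choose r : ℤ)) •
        (P k).eval ((j : ℤ) - (4 * k + 1) + r • (1 : ℤ))) = 0 := by
    rw [← h3]
    refine sum_subset ?_ ?_
    · intro r hr
      rw [mem_Ico] at hr
      rw [mem_range]
      omega
    · intro r hr hr'
      rw [mem_range] at hr
      rw [mem_Ico] at hr'
      have h5 : r < 4 * k + 1 - j ∨ 4 * k + 1 - j + (2 * k + 1) ≤ r := by omega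
      have h6 : (P k).eval ((j : ℤ) - (4 * k + 1) + r • (1 : ℤ)) = 0 := by
        rcases h5 with h5 | h5
        · refine P_zero_neg k _ ?_ ?_
          · simp only [nsmul_eq_mul, mul_one]; omega
          · simp only [nsmul_eq_mul, mul_one]; omega
        · refine P_zero_pos k _ ?_ ?_
          · simp only [nsmul_eq_mul, mul_one]; omega
          · simp only [nsmul_eq_mul, mul_one]; omega
      rw [h6, smul_zero]
  rw [sum_Ico_eq_sum_range, Nat.add_sub_cancel_left] at h4
  have h7 : ∀ i ∈ range (2 * k + 1), (((-1 : ℤ) ^ (4 * k + 1 - (4 * k + 1 - j + i)) *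
      ((4 * k + 1).choose (4 * k + 1 - j + i) : ℤ)) •
        (P k).eval ((j : ℤ) - (4 * k + 1) + (4 * k + 1 - j + i) • (1 : ℤ))) =
      (-1) ^ j * (g k i * ((4 * k + 1).choose (j - i) : ℤ)) := by
    intro i hi
    have hi' := mem_range.1 hi
    have e1 : 4 * k + 1 - (4 * k + 1 - j + i) = j - i := by omega
    have e2 : (4 * k + 1).choose (4 * k + 1 - j + i) = (4 * k + 1).choose (j - i) := by
      rw [← Nat.choose_symm (show j - i ≤ 4 * k + 1 by omega)]
      congr 1
      omega
    have e3 : (j : ℤ) - (4 * k + 1) + (4 * k + 1 - j + i) • (1 : ℤ) = (i : ℤ) := by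
      simp only [nsmul_eq_mul, mul_one]
      omega
    have e4 : (-1 : ℤ) ^ (j - i) = (-1) ^ j * (-1) ^ i := by
      have : j = (j - i) + i := by omega
      conv_rhs => rw [this]
      rw [pow_add, mul_assoc, ← pow_add, ← two_mul, pow_mul]
      simp
    rw [e1, e2, e3, e4]
    unfold g
    rw [smul_eq_mul]
    ring
  rw [sum_congr rfl h7, ← mul_sum] at h4
  rcases mul_eq_zero.1 h4 with h8 | h8
  · exact absurd h8 (pow_ne_zero _ (by norm_num))
  · exact h8

theorem reidx {B : Type} [CommRing B] (i N M : ℕ) (hM : i + N ≤ M) (c F : ℕ → B)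
    (hc : ∀ m, N ≤ m → c m = 0) :
    ∑ m ∈ range N, c m * F (i + m) = ∑ j ∈ range M, (if i ≤ j then c (j - i) else 0) * F j := by
  have h1 : ∑ j ∈ Ico i (i + N), (if i ≤ j then c (j - i) else 0) * F j =
      ∑ j ∈ range M, (if i ≤ j then c (j - i) else 0) * F j := by
    refine sum_subset ?_ ?_
    · intro j hj
      rw [mem_Ico] at hj
      rw [mem_range]
      omega
    · intro j _ hj
      rw [mem_Ico] at hj
      by_cases h : i ≤ j
      · rw [if_pos h, hc _ (by omega), zero_mul]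
      · rw [if_neg h, zero_mul]
  rw [← h1, sum_Ico_eq_sum_range, Nat.add_sub_cancel_left]
  refine sum_congr rfl fun m _ => ?_
  rw [if_pos (by omega), Nat.add_sub_cancel_left]

end NG

open NG in
theorem taskNG : ∀ (n w k p : ℕ), p.Prime → 4 * w * p = n * (4 * k + 1) + 1 → 6 * w < n →
    ∀ (B : Type) [CommRing B] [CharP B p] (x y z a b c : B), z ^ n = x ^ n + y ^ n →
    x ^ (3 * w) * y ^ (3 * w) = a * x ^ (4 * w) + b * y ^ (4 * w) + c * z ^ (4 * w) →
    ∃ u v : B, x ^ (4 * w * p - 1) * y ^ (4 * w * p - 1) =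
      u * x ^ (4 * w * p) + v * y ^ (4 * w * p) := by
  intro n w k p hp hD hn B _ _ x y z a b c hz hrel
  have := Fact.mk hp
  have hw : 0 < w := by
    rcases Nat.eq_zero_or_pos w with h | h
    · rw [h] at hD; omega
    · exact h
  have hk : 6 * k < p := by
    by_contra h
    push Not at h
    have h1 : 4 * w * p ≤ 4 * w * (6 * k) := Nat.mul_le_mul_left _ h
    have h2 : (6 * w + 1) * (4 * k + 1) ≤ n * (4 * k + 1) := Nat.mul_le_mul_right _ hn
    nlinarith
  have hD' : 4 * (w * p) = 4 * (n * k) + n + 1 := by linarith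
  obtain ⟨q, hq⟩ : ∃ q, q = w * p := ⟨_, rfl⟩
  obtain ⟨r, hr⟩ : ∃ r, r = n * k := ⟨_, rfl⟩
  rw [← hq, ← hr] at hD'
  obtain ⟨s, hs⟩ : ∃ s, q = r + 1 + s := ⟨q - r - 1, by omega⟩
  have hs1 : 1 ≤ s := by omega
  have hDq : 4 * w * p = 4 * q := by rw [hq]; ring
  rw [hDq]
  -- Frobenius
  have hF : x ^ (3 * q) * y ^ (3 * q) = a ^ p * x ^ (4 * q) + b ^ p * y ^ (4 * q) +
      c ^ p * (z * (x ^ n + y ^ n) ^ (4 * k + 1)) := by
    have h1 : (x ^ (3 * w) * y ^ (3 * w)) ^ p =
        (a * x ^ (4 * w) + b * y ^ (4 * w) + c * z ^ (4 * w)) ^ p := by rw [hrel]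
    rw [add_pow_char, add_pow_char, mul_pow, mul_pow, mul_pow, mul_pow, ← pow_mul, ← pow_mul,
      ← pow_mul, ← pow_mul, ← pow_mul] at h1
    have e1 : 3 * w * p = 3 * q := by rw [hq]; ring
    rw [e1, hDq] at h1
    rw [h1, ← hz]
    have e2 : z ^ (4 * q) = z * (z ^ n) ^ (4 * k + 1) := by
      rw [← pow_mul, ← pow_succ', ← hDq, hD]
    rw [e2]
  set I : Ideal B := Ideal.span {x ^ (4 * q), y ^ (4 * q)} with hI
  have hx : ∀ m, 4 * q ≤ m → x ^ m ∈ I := by
    intro m hm
    obtain ⟨t, rfl⟩ := Nat.exists_eq_add_of_le hm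
    rw [pow_add]
    exact Ideal.mul_mem_right _ _ (Ideal.subset_span (by simp))
  have hy : ∀ m, 4 * q ≤ m → y ^ m ∈ I := by
    intro m hm
    obtain ⟨t, rfl⟩ := Nat.exists_eq_add_of_le hm
    rw [pow_add]
    exact Ideal.mul_mem_right _ _ (Ideal.subset_span (by simp))
  set F : ℕ → B := fun j => x ^ (s + n * j) * y ^ (s + n * (6 * k + 1 - j)) with hFdef
  -- the right side
  have key : (∑ i ∈ range (2 * k + 1), (g k i : B) * (x ^ (s + n * i) * y ^ (s + n * (2 * k - i)))) *
      (x ^ n + y ^ n) ^ (4 * k + 1) ∈ I := by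
    have e1 : (∑ i ∈ range (2 * k + 1), (g k i : B) *
        (x ^ (s + n * i) * y ^ (s + n * (2 * k - i)))) * (x ^ n + y ^ n) ^ (4 * k + 1) =
        ∑ i ∈ range (2 * k + 1), (g k i : B) *
          ∑ m ∈ range (4 * k + 2), (((4 * k + 1).choose m : ℕ) : B) * F (i + m) := by
      rw [sum_mul]
      refine sum_congr rfl fun i hi => ?_
      rw [add_pow, mul_assoc, mul_sum]
      congr 1
      refine sum_congr rfl fun m hm => ?_
      have hi' := mem_range.1 hi
      have hm' := mem_range.1 hm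
      simp only [hFdef]
      have e2 : 6 * k + 1 - (i + m) = (2 * k - i) + (4 * k + 1 - m) := by omega
      rw [e2, mul_add n i m, mul_add n (2 * k - i), ← pow_mul, ← pow_mul, ← add_assoc, ← add_assoc,
        pow_add x (s + n * i), pow_add y (s + n * (2 * k - i))]
      ring
    have e3 : ∀ i ∈ range (2 * k + 1), (g k i : B) *
        ∑ m ∈ range (4 * k + 2), (((4 * k + 1).choose m : ℕ) : B) * F (i + m) =
        ∑ j ∈ range (6 * k + 2), (g k i : B) *
          ((if i ≤ j then (((4 * k + 1).choose (j - i) : ℕ) : B) else 0) * F j) := by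
      intro i hi
      have hi' := mem_range.1 hi
      rw [reidx i (4 * k + 2) (6 * k + 2) (by omega)
        (fun m => (((4 * k + 1).choose m : ℕ) : B)) F (by
          intro m hm
          rw [Nat.choose_eq_zero_of_lt (by omega)]
          simp), mul_sum]
    rw [e1, sum_congr rfl e3, sum_comm]
    refine Ideal.sum_mem _ fun j hj => ?_
    have hj' := mem_range.1 hj
    by_cases hmid : 2 * k + 1 ≤ j ∧ j ≤ 4 * k
    · have h0 : ∑ i ∈ range (2 * k + 1), (g k i : B) *
          ((if i ≤ j then (((4 * k + 1).choose (j - i) : ℕ) : B) else 0) * F j) =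
          (((∑ i ∈ range (2 * k + 1), g k i * ((4 * k + 1).choose (j - i) : ℤ) : ℤ)) : B) * F j := by
        rw [Int.cast_sum, sum_mul]
        refine sum_congr rfl fun i hi => ?_
        have hi' := mem_range.1 hi
        rw [if_pos (by omega)]
        push_cast
        ring
      rw [h0, h_zero k j hmid.1 hmid.2]
      simp
    · refine Ideal.sum_mem _ fun i _ => Ideal.mul_mem_left _ _ (Ideal.mul_mem_left _ _ ?_)
      simp only [hFdef]
      by_cases h4 : 4 * k + 1 ≤ j
      · refine Ideal.mul_mem_right _ _ (hx _ ?_)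
        have := Nat.mul_le_mul_left n h4
        have e5 : n * (4 * k + 1) = 4 * r + n := by rw [hr]; ring
        omega
      · refine Ideal.mul_mem_left _ _ (hy _ ?_)
        have h5 : 4 * k + 1 ≤ 6 * k + 1 - j := by omega
        have := Nat.mul_le_mul_left n h5
        have e5 : n * (4 * k + 1) = 4 * r + n := by rw [hr]; ring
        omega
  -- the left side
  have left : (∑ i ∈ range (2 * k + 1), (g k i : B) *
      (x ^ (s + n * i) * y ^ (s + n * (2 * k - i)))) * (x ^ (3 * q) * y ^ (3 * q)) -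
      (g k k : B) * (x ^ (4 * q - 1) * y ^ (4 * q - 1)) ∈ I := by
    have hkm : k ∈ range (2 * k + 1) := mem_range.2 (by omega)
    rw [← add_sum_erase _ _ hkm, add_mul]
    have e1 : (g k k : B) * (x ^ (s + n * k) * y ^ (s + n * (2 * k - k))) *
        (x ^ (3 * q) * y ^ (3 * q)) = (g k k : B) * (x ^ (4 * q - 1) * y ^ (4 * q - 1)) := by
      have e2 : 2 * k - k = k := by omega
      have e3 : 4 * q - 1 = (s + n * k) + 3 * q := by rw [← hr]; omega
      rw [e2, e3, pow_add x (s + n * k), pow_add y (s + n * k)]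
      ring
    rw [e1, add_sub_cancel_left, sum_mul]
    refine Ideal.sum_mem _ fun i hi => ?_
    have hik : i ≠ k := ne_of_mem_erase hi
    have hi' := mem_range.1 (mem_of_mem_erase hi)
    have e4 : (g k i : B) * (x ^ (s + n * i) * y ^ (s + n * (2 * k - i))) *
        (x ^ (3 * q) * y ^ (3 * q)) = (g k i : B) * (x ^ (s + n * i + 3 * q) *
          y ^ (s + n * (2 * k - i) + 3 * q)) := by
      rw [pow_add x (s + n * i), pow_add y (s + n * (2 * k - i))]
      ring
    rw [e4]
    refine Ideal.mul_mem_left _ _ ?_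
    rcases lt_or_gt_of_ne hik with h | h
    · refine Ideal.mul_mem_left _ _ (hy _ ?_)
      have h5 : k + 1 ≤ 2 * k - i := by omega
      have := Nat.mul_le_mul_left n h5
      have e5 : n * (k + 1) = r + n := by rw [hr]; ring
      omega
    · refine Ideal.mul_mem_right _ _ (hx _ ?_)
      have h5 : k + 1 ≤ i := h
      have := Nat.mul_le_mul_left n h5
      have e5 : n * (k + 1) = r + n := by rw [hr]; ring
      omega
  have hmem : (g k k : B) * (x ^ (4 * q - 1) * y ^ (4 * q - 1)) ∈ I := by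
    have h1 : (∑ i ∈ range (2 * k + 1), (g k i : B) *
        (x ^ (s + n * i) * y ^ (s + n * (2 * k - i)))) * (x ^ (3 * q) * y ^ (3 * q)) ∈ I := by
      rw [hF, mul_add, mul_add]
      refine Ideal.add_mem _ (Ideal.add_mem _ ?_ ?_) ?_
      · exact Ideal.mul_mem_left _ _ (Ideal.mul_mem_left _ _ (hx _ le_rfl))
      · exact Ideal.mul_mem_left _ _ (Ideal.mul_mem_left _ _ (hy _ le_rfl))
      · have e6 : (∑ i ∈ range (2 * k + 1), (g k i : B) *
            (x ^ (s + n * i) * y ^ (s + n * (2 * k - i)))) *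
            (c ^ p * (z * (x ^ n + y ^ n) ^ (4 * k + 1))) = (c ^ p * z) *
            ((∑ i ∈ range (2 * k + 1), (g k i : B) *
            (x ^ (s + n * i) * y ^ (s + n * (2 * k - i)))) * (x ^ n + y ^ n) ^ (4 * k + 1)) := by
          ring
        rw [e6]
        exact Ideal.mul_mem_left _ _ key
    have h2 := Ideal.sub_mem _ h1 left
    rwa [sub_sub_cancel] at h2
  -- the coefficient is invertible
  obtain ⟨e, he⟩ : ∃ e : B, e * (g k k : B) = 1 := by
    have hc : IsCoprime (g k k) (p : ℤ) := by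
      have h1 : ¬ (p : ℤ) ∣ g k k := by
        unfold g
        intro h
        rcases neg_one_pow_eq_or ℤ k with h2 | h2
        · rw [h2, one_mul] at h
          exact P_mid k p hp hk h
        · rw [h2, neg_one_mul, dvd_neg] at h
          exact P_mid k p hp hk h
      exact ((Nat.prime_iff_prime_int.1 hp).coprime_iff_not_dvd.2 h1).symm
    obtain ⟨u, v, huv⟩ := hc
    refine ⟨(u : B), ?_⟩
    have h3 := congrArg (fun t : ℤ => (t : B)) huv
    simp only [Int.cast_add, Int.cast_mul, Int.cast_natCast, CharP.cast_eq_zero, mul_zero, add_zero,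
      Int.cast_one] at h3
    exact h3
  have hfin : x ^ (4 * q - 1) * y ^ (4 * q - 1) ∈ I := by
    have h4 := Ideal.mul_mem_left I e hmem
    rwa [← mul_assoc, he, one_mul] at h4
  obtain ⟨u, v, huv⟩ := Ideal.mem_span_pair.1 hfin
  exact ⟨u, v, huv.symm⟩

end Pool.Agent.H408BCM
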