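import Pool.Agent.H408BCM.Stmts

/-!
Task N of project BCM408: the Brenner-Katzman computation in characteristic `7k+2`.
-/

set_option autoImplicit false

namespace Pool.Agent.H408BCM

namespace NN

open Polynomial Finset

theorem alt_sum (P : ℤ[X]) (n : ℕ) (hP : P.natDegree < n) :
    ∑ i ∈ range (n + 1), ((-1 : ℤ) ^ (n - i) * n.choose i) * P.eval (i : ℤ) = 0 := by
  have h1 := congrFun (Polynomial.fwdDiff_iter_eq_zero_of_degree_lt hP) 0
  rw [fwdDiff_iter_eq_sum_shift] at h1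
  simpa [smul_eq_mul] using h1

/-- the coefficients of the multiplier -/
def hc (k i : ℕ) : ℤ :=
  (-1 : ℤ) ^ (2 * k - i) * ((2 * k).choose i) * (((2 * k + i).factorial : ℤ) * ((4 * k - i).factorial : ℤ))

theorem hc_mul (k i j : ℕ) (hi : i ≤ 2 * k) (hj : 2 * k + 1 ≤ j) (hj' : j ≤ 4 * k) :
    (2 * k + i).factorial * (4 * k - i).factorial * (4 * k + 1).choose (j - i) =
      (4 * k + 1).factorial * ((4 * k + 1 - j + i + 1).ascFactorial (j - 2 * k - 1) *
        (j - i + 1).ascFactorial (4 * k - j)) := by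
  have h1 := Nat.factorial_mul_ascFactorial (4 * k + 1 - j + i) (j - 2 * k - 1)
  have h2 := Nat.factorial_mul_ascFactorial (j - i) (4 * k - j)
  rw [show 4 * k + 1 - j + i + (j - 2 * k - 1) = 2 * k + i by omega] at h1
  rw [show j - i + (4 * k - j) = 4 * k - i by omega] at h2
  have h3 := Nat.choose_mul_factorial_mul_factorial (show j - i ≤ 4 * k + 1 by omega)
  rw [show 4 * k + 1 - (j - i) = 4 * k + 1 - j + i by omega] at h3
  rw [← h1, ← h2, ← h3]
  ring

theorem hc_sum (k j : ℕ) (hj : 2 * k + 1 ≤ j) (hj' : j ≤ 4 * k) :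
    ∑ i ∈ range (2 * k + 1), hc k i * ((4 * k + 1).choose (j - i) : ℤ) = 0 := by
  set P : ℤ[X] := (ascPochhammer ℤ (j - 2 * k - 1)).comp (X + C ((4 * k + 1 - j + 1 : ℕ) : ℤ)) *
    (ascPochhammer ℤ (4 * k - j)).comp (C ((j + 1 : ℕ) : ℤ) - X) with hPdef
  have hdeg : P.natDegree < 2 * k := by
    have h1 : ((ascPochhammer ℤ (j - 2 * k - 1)).comp
        (X + C ((4 * k + 1 - j + 1 : ℕ) : ℤ))).natDegree ≤ j - 2 * k - 1 := by
      refine natDegree_comp_le.trans ?_
      rw [ascPochhammer_natDegree, natDegree_X_add_C, mul_one]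
    have h2 : ((ascPochhammer ℤ (4 * k - j)).comp
        (C ((j + 1 : ℕ) : ℤ) - X)).natDegree ≤ 4 * k - j := by
      refine natDegree_comp_le.trans ?_
      rw [ascPochhammer_natDegree]
      have h3 : (C ((j + 1 : ℕ) : ℤ) - X : ℤ[X]).natDegree ≤ 1 := by
        refine (natDegree_sub_le _ _).trans ?_
        rw [natDegree_C, natDegree_X]; simp
      calc (4 * k - j) * (C ((j + 1 : ℕ) : ℤ) - X : ℤ[X]).natDegree ≤ (4 * k - j) * 1 :=
            Nat.mul_le_mul_left _ h3
        _ = _ := mul_one _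
    have h4 : P.natDegree ≤ (j - 2 * k - 1) + (4 * k - j) :=
      (natDegree_mul_le).trans (Nat.add_le_add h1 h2)
    omega
  have halt := alt_sum P (2 * k) hdeg
  have heval : ∀ i ∈ range (2 * k + 1), P.eval (i : ℤ) =
      (((4 * k + 1 - j + i + 1).ascFactorial (j - 2 * k - 1) : ℕ) : ℤ) *
        (((j - i + 1).ascFactorial (4 * k - j) : ℕ) : ℤ) := by
    intro i hi
    rw [mem_range] at hi
    rw [hPdef, eval_mul, eval_comp, eval_comp]
    have e1 : eval (i : ℤ) (X + C ((4 * k + 1 - j + 1 : ℕ) : ℤ)) =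
        ((4 * k + 1 - j + i + 1 : ℕ) : ℤ) := by
      simp only [eval_add, eval_X, eval_C]; push_cast; ring
    have e2 : eval (i : ℤ) (C ((j + 1 : ℕ) : ℤ) - X) = ((j - i + 1 : ℕ) : ℤ) := by
      simp only [eval_sub, eval_X, eval_C]
      rw [Nat.cast_add, Nat.cast_add, Nat.cast_sub (by omega)]; push_cast; ring
    rw [e1, e2, ← ascPochhammer_eval_cast, ← ascPochhammer_eval_cast,
      ascPochhammer_nat_eq_ascFactorial, ascPochhammer_nat_eq_ascFactorial]
  have e : ∀ i ∈ range (2 * k + 1), hc k i * ((4 * k + 1).choose (j - i) : ℤ) =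
      ((4 * k + 1).factorial : ℤ) *
        (((-1 : ℤ) ^ (2 * k - i) * (2 * k).choose i) * P.eval (i : ℤ)) := by
    intro i hi
    rw [heval i hi]
    rw [mem_range] at hi
    have h1 := hc_mul k i j (by omega) hj hj'
    have h2 : (((2 * k + i).factorial : ℤ) * ((4 * k - i).factorial : ℤ)) *
        ((4 * k + 1).choose (j - i) : ℤ) = ((4 * k + 1).factorial : ℤ) *
          ((((4 * k + 1 - j + i + 1).ascFactorial (j - 2 * k - 1) : ℕ) : ℤ) *
            (((j - i + 1).ascFactorial (4 * k - j) : ℕ) : ℤ)) := by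
      exact_mod_cast h1
    unfold hc
    calc (-1 : ℤ) ^ (2 * k - i) * ((2 * k).choose i) *
          (((2 * k + i).factorial : ℤ) * ((4 * k - i).factorial : ℤ)) *
            ((4 * k + 1).choose (j - i) : ℤ)
        = (-1 : ℤ) ^ (2 * k - i) * ((2 * k).choose i) *
          ((((2 * k + i).factorial : ℤ) * ((4 * k - i).factorial : ℤ)) *
            ((4 * k + 1).choose (j - i) : ℤ)) := by ring
      _ = _ := by rw [h2]; ring
  rw [sum_congr rfl e, ← mul_sum, halt, mul_zero]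

theorem hc_mid (k p : ℕ) (hp : p.Prime) (hpk : p = 7 * k + 2) : ¬ (p : ℤ) ∣ hc k k := by
  have h1 : ¬ p ∣ (2 * k).choose k * ((3 * k).factorial * (3 * k).factorial) := by
    have hf : ¬ p ∣ (3 * k).factorial := by
      rw [hp.dvd_factorial]; omega
    have hf2 : ¬ p ∣ (2 * k).factorial := by
      rw [hp.dvd_factorial]; omega
    have hcc : ¬ p ∣ (2 * k).choose k := by
      intro h
      apply hf2
      have h2 := Nat.choose_mul_factorial_mul_factorial (show k ≤ 2 * k by omega)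
      rw [← h2]
      exact (h.mul_right _).mul_right _
    rw [hp.dvd_mul, hp.dvd_mul]
    tauto
  intro h
  apply h1
  have h2 : hc k k = (-1 : ℤ) ^ k *
      (((2 * k).choose k * ((3 * k).factorial * (3 * k).factorial) : ℕ) : ℤ) := by
    unfold hc
    rw [show 2 * k - k = k by omega, show 2 * k + k = 3 * k by omega,
      show 4 * k - k = 3 * k by omega]
    push_cast; ring
  rw [h2] at h
  have h3 : (p : ℤ) ∣ (((2 * k).choose k * ((3 * k).factorial * (3 * k).factorial) : ℕ) : ℤ) := by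
    have h4 : (p : ℤ) ∣ (-1 : ℤ) ^ k * ((-1 : ℤ) ^ k *
        (((2 * k).choose k * ((3 * k).factorial * (3 * k).factorial) : ℕ) : ℤ)) := h.mul_left _
    rw [← mul_assoc, ← mul_pow] at h4
    simpa using h4
  exact_mod_cast h3

section ring

variable {B : Type} [CommRing B]

/-- the multiplier -/
def EE (k : ℕ) (x y : B) : B :=
  x * y * ∑ i ∈ range (2 * k + 1), ((hc k i : ℤ) : B) * ((x ^ 7) ^ i * (y ^ 7) ^ (2 * k - i))

theorem mem_x {x y : B} {P a b : ℕ} (h : P ≤ a) :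
    x ^ a * y ^ b ∈ Ideal.span {x ^ P, y ^ P} := by
  obtain ⟨c, rfl⟩ := Nat.exists_eq_add_of_le h
  rw [pow_add, mul_assoc]
  exact Ideal.mul_mem_right _ _ (Ideal.subset_span (by simp))

theorem mem_y {x y : B} {P a b : ℕ} (h : P ≤ b) :
    x ^ a * y ^ b ∈ Ideal.span {x ^ P, y ^ P} := by
  obtain ⟨c, rfl⟩ := Nat.exists_eq_add_of_le h
  rw [pow_add, mul_left_comm]
  exact Ideal.mul_mem_right _ _ (Ideal.subset_span (by simp))

theorem claim1 (k p : ℕ) (hpk : p = 7 * k + 2) (x y : B) :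
    EE k x y * (x ^ 7 + y ^ 7) ^ (4 * k + 1) ∈ Ideal.span {x ^ (4 * p), y ^ (4 * p)} := by
  let S := range (2 * k + 1) ×ˢ range (4 * k + 2)
  let t : ℕ × ℕ → B := fun q => ((hc k q.1 * ((4 * k + 1).choose q.2 : ℤ) : ℤ) : B) *
    (x ^ (7 * (q.1 + q.2) + 1) * y ^ (7 * (6 * k + 1 - (q.1 + q.2)) + 1))
  have e1 : EE k x y * (x ^ 7 + y ^ 7) ^ (4 * k + 1) = ∑ q ∈ S, t q := by
    unfold EE
    rw [add_pow, mul_assoc, sum_mul_sum, mul_sum, sum_product]
    refine sum_congr rfl fun i hi => ?_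
    rw [mul_sum]
    refine sum_congr rfl fun l hl => ?_
    rw [mem_range] at hi hl
    simp only [t]
    obtain ⟨m, hm⟩ := Nat.exists_eq_add_of_le (show i ≤ 2 * k by omega)
    obtain ⟨n, hn⟩ := Nat.exists_eq_add_of_le (show l ≤ 4 * k + 1 by omega)
    rw [show 2 * k - i = m by omega, show 4 * k + 1 - l = n by omega,
      show 6 * k + 1 - (i + l) = m + n by omega]
    push_cast
    ring
  rw [e1, ← sum_fiberwise_of_maps_to (s := S) (t := range (6 * k + 2)) (g := fun q => q.1 + q.2)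
    (by
      intro q hq
      simp only [S, mem_product, mem_range] at hq
      rw [mem_range]; omega)]
  refine Ideal.sum_mem _ fun j hj => ?_
  have e2 : ∑ q ∈ S with q.1 + q.2 = j, t q =
      (((∑ q ∈ S with q.1 + q.2 = j, hc k q.1 * ((4 * k + 1).choose q.2 : ℤ)) : ℤ) : B) *
        (x ^ (7 * j + 1) * y ^ (7 * (6 * k + 1 - j) + 1)) := by
    rw [Int.cast_sum, sum_mul]
    refine sum_congr rfl fun q hq => ?_
    rw [mem_filter] at hq
    simp only [t, hq.2]
  rw [e2]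
  by_cases h1 : j ≤ 2 * k
  · exact Ideal.mul_mem_left _ _ (mem_y (by omega))
  by_cases h2 : 4 * k + 1 ≤ j
  · exact Ideal.mul_mem_left _ _ (mem_x (by omega))
  have e3 : ∑ q ∈ S with q.1 + q.2 = j, hc k q.1 * ((4 * k + 1).choose q.2 : ℤ) =
      ∑ i ∈ range (2 * k + 1), hc k i * ((4 * k + 1).choose (j - i) : ℤ) := by
    refine sum_bij' (fun q _ => q.1) (fun i _ => (i, j - i)) ?_ ?_ ?_ ?_ ?_
    · intro q hq
      simp only [S, mem_filter, mem_product] at hq
      exact hq.1.1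
    · intro i hi
      simp only [S, mem_filter, mem_product, mem_range] at hi ⊢
      omega
    · intro q hq
      simp only [S, mem_filter, mem_product, mem_range] at hq
      ext
      · rfl
      · show j - q.1 = q.2; omega
    · intro i hi; rfl
    · intro q hq
      simp only [S, mem_filter, mem_product, mem_range] at hq
      rw [show j - q.1 = q.2 by omega]
  rw [e3, hc_sum k j (by omega) (by omega)]
  simp

theorem claim2 (k p : ℕ) (hpk : p = 7 * k + 2) (x y : B) :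
    EE k x y * (x ^ (3 * p) * y ^ (3 * p)) -
      ((hc k k : ℤ) : B) * (x ^ (4 * p - 1) * y ^ (4 * p - 1)) ∈
        Ideal.span {x ^ (4 * p), y ^ (4 * p)} := by
  have e1 : EE k x y * (x ^ (3 * p) * y ^ (3 * p)) =
      ∑ i ∈ range (2 * k + 1), ((hc k i : ℤ) : B) *
        (x ^ (7 * i + 1 + 3 * p) * y ^ (7 * (2 * k - i) + 1 + 3 * p)) := by
    unfold EE
    rw [mul_assoc, sum_mul, mul_sum]
    refine sum_congr rfl fun i _ => ?_
    ring
  rw [e1, ← add_sum_erase _ _ (show k ∈ range (2 * k + 1) by rw [mem_range]; omega)]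
  have e2 : x ^ (7 * k + 1 + 3 * p) * y ^ (7 * (2 * k - k) + 1 + 3 * p) =
      x ^ (4 * p - 1) * y ^ (4 * p - 1) := by
    congr 2 <;> omega
  rw [e2, add_sub_cancel_left]
  refine Ideal.sum_mem _ fun i hi => Ideal.mul_mem_left _ _ ?_
  rw [mem_erase, mem_range] at hi
  rcases lt_or_gt_of_ne hi.1 with h | h
  · exact mem_y (by omega)
  · exact mem_x (by omega)

end ring

end NN

open NN in
theorem taskN : TaskN := by
  intro k p hp hpk B _ _ x y z a b c hz hxy
  have : Fact p.Prime := ⟨hp⟩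
  have h4p : 4 * p = 7 * (4 * k + 1) + 1 := by omega
  have hfrob : x ^ (3 * p) * y ^ (3 * p) =
      a ^ p * x ^ (4 * p) + b ^ p * y ^ (4 * p) + c ^ p * z * (x ^ 7 + y ^ 7) ^ (4 * k + 1) := by
    have h1 : (x ^ 3 * y ^ 3) ^ p = (a * x ^ 4 + b * y ^ 4 + c * z ^ 4) ^ p := by rw [hxy]
    rw [add_pow_char, add_pow_char] at h1
    rw [mul_pow, mul_pow, mul_pow, mul_pow, ← pow_mul, ← pow_mul, ← pow_mul, ← pow_mul,
      ← pow_mul] at h1
    rw [h1]
    congr 1
    rw [← hz, ← pow_mul, mul_assoc, ← pow_succ', ← h4p]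
  have hI1 := claim1 k p hpk x y
  have hI2 := claim2 k p hpk x y
  have hI3 : EE k x y * (x ^ (3 * p) * y ^ (3 * p)) ∈ Ideal.span {x ^ (4 * p), y ^ (4 * p)} := by
    rw [hfrob]
    have e : EE k x y * (a ^ p * x ^ (4 * p) + b ^ p * y ^ (4 * p) +
        c ^ p * z * (x ^ 7 + y ^ 7) ^ (4 * k + 1)) =
        (EE k x y * a ^ p) * x ^ (4 * p) + (EE k x y * b ^ p) * y ^ (4 * p) +
          (c ^ p * z) * (EE k x y * (x ^ 7 + y ^ 7) ^ (4 * k + 1)) := by ring
    rw [e]
    refine Ideal.add_mem _ (Ideal.add_mem _ ?_ ?_) (Ideal.mul_mem_left _ _ hI1)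
    · exact Ideal.mul_mem_left _ _ (Ideal.subset_span (by simp))
    · exact Ideal.mul_mem_left _ _ (Ideal.subset_span (by simp))
  have hI4 : ((hc k k : ℤ) : B) * (x ^ (4 * p - 1) * y ^ (4 * p - 1)) ∈
      Ideal.span {x ^ (4 * p), y ^ (4 * p)} := by
    have := Ideal.sub_mem _ hI3 hI2
    rwa [sub_sub_cancel] at this
  obtain ⟨m, m', hm⟩ : ∃ m m' : ℤ, m * hc k k + m' * p = 1 := by
    have h1 : IsCoprime (p : ℤ) (hc k k) := by
      rw [Int.isCoprime_iff_gcd_eq_one]
      have h2 := (Nat.prime_iff_prime_int.1 hp).coprime_iff_not_dvd.2 (hc_mid k p hp hpk)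
      rwa [Int.isCoprime_iff_gcd_eq_one] at h2
    obtain ⟨u, v, huv⟩ := h1
    exact ⟨v, u, by rw [← huv]; ring⟩
  have hB : ((m : ℤ) : B) * ((hc k k : ℤ) : B) = 1 := by
    have h1 : ((m * hc k k + m' * p : ℤ) : B) = ((1 : ℤ) : B) := by rw [hm]
    push_cast at h1
    rw [CharP.cast_eq_zero B p, mul_zero, add_zero] at h1
    exact h1
  have hI5 : x ^ (4 * p - 1) * y ^ (4 * p - 1) ∈ Ideal.span {x ^ (4 * p), y ^ (4 * p)} := by
    have := Ideal.mul_mem_left _ ((m : ℤ) : B) hI4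
    rwa [← mul_assoc, hB, one_mul] at this
  obtain ⟨u, v, huv⟩ := Ideal.mem_span_pair.1 hI5
  exact ⟨u, v, huv.symm⟩

end Pool.Agent.H408BCM
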