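import Pool.Agent.H408BCM.Stmts

set_option autoImplicit false

namespace Pool.Agent.H408BCM.TH407

open MvPolynomial Pool.Agent.H408BCM

lemma colon_one {B : Type} [CommRing B] (X Y : B)
    (h2 : ∀ b c : B, Y * b = X * c → ∃ d : B, b = X * d) (M : ℕ) :
    ∀ u v : B, Y ^ M * u = X * v → ∃ d : B, u = X * d := by
  induction M with
  | zero => intro u v h; exact ⟨v, by rw [← h, pow_zero, one_mul]⟩
  | succ M ih =>
    intro u v h
    obtain ⟨d, hd⟩ := h2 (Y ^ M * u) v (by rw [← h]; ring)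
    exact ih u d hd

lemma colon {B : Type} [CommRing B] (X Y : B) (hX : ∀ b : B, X * b = 0 → b = 0)
    (h2 : ∀ b c : B, Y * b = X * c → ∃ d : B, b = X * d) (M N : ℕ) :
    ∀ u v : B, Y ^ M * u = X ^ N * v → ∃ d : B, u = X ^ N * d := by
  induction N with
  | zero => intro u v _; exact ⟨u, by rw [pow_zero, one_mul]⟩
  | succ N ih =>
    intro u v h
    obtain ⟨d, hd⟩ := colon_one X Y h2 M u (X ^ N * v) (by rw [h]; ring)
    have h3 : Y ^ M * d - X ^ N * v = 0 := by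
      apply hX
      have : X * (Y ^ M * d - X ^ N * v) = Y ^ M * (X * d) - X ^ (N + 1) * v := by ring
      rw [this, ← hd, h, sub_self]
    obtain ⟨e, he⟩ := ih d v (sub_eq_zero.mp h3)
    exact ⟨e, by rw [hd, he]; ring⟩

theorem taskT : TaskT := by
  intro hS hC k _ B _ _ hG rs hrs
  obtain ⟨f, g, rfl, hf0, ⟨α, β, N, hx⟩, ⟨α', β', M, hy⟩, hfm, hgm⟩ := (hS k).2 rs hrs
  obtain ⟨G1, G2, G3⟩ := hG
  have hinj : Function.Injective (algebraMap (A k) (R k)) :=
    IsLocalization.injective (R k) (Ideal.primeCompl_le_nonZeroDivisors (mA k))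
  have hx0 : rx k 0 ≠ 0 := by
    intro h
    exact MvPolynomial.X_ne_zero (R := k) (0 : Fin 2) (hinj (by rw [map_zero]; exact h))
  rw [hC]
  have hsm : ∀ (r : R k) (b : B), r • b = algebraMap (R k) B r * b :=
    fun r b => Algebra.smul_def r b
  simp only [hsm] at G1 G2 G3 ⊢
  set ψ := algebraMap (R k) B with hψ
  refine ⟨fun b hb => G1 f b hf0 hb, ?_, ?_⟩
  · intro b c hbc
    have ex : ψ α * ψ f + ψ β * ψ g = ψ (rx k 0) ^ N := by
      rw [← map_mul, ← map_mul, ← map_add, hx, map_pow]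
    have ey : ψ α' * ψ f + ψ β' * ψ g = ψ (rx k 1) ^ M := by
      rw [← map_mul, ← map_mul, ← map_add, hy, map_pow]
    have e1 : ψ (rx k 0) ^ N * b = ψ f * (ψ α * b + ψ β * c) := by
      rw [← ex]
      linear_combination ψ β * hbc
    have e2 : ψ (rx k 1) ^ M * b = ψ f * (ψ α' * b + ψ β' * c) := by
      rw [← ey]
      linear_combination ψ β' * hbc
    have e3 : ψ f * (ψ (rx k 1) ^ M * (ψ α * b + ψ β * c) -
        ψ (rx k 0) ^ N * (ψ α' * b + ψ β' * c)) = 0 := by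
      linear_combination (-(ψ (rx k 1) ^ M)) * e1 + (ψ (rx k 0) ^ N) * e2
    have e4 := sub_eq_zero.mp (G1 f _ hf0 e3)
    obtain ⟨d, hd⟩ := colon (ψ (rx k 0)) (ψ (rx k 1)) (fun b hb => G1 _ b hx0 hb) G2 M N _ _ e4
    refine ⟨d, ?_⟩
    have hxN : rx k 0 ^ N ≠ 0 := pow_ne_zero _ hx0
    have e5 : ψ (rx k 0 ^ N) * (b - ψ f * d) = 0 := by
      rw [map_pow]
      linear_combination e1 + ψ f * hd
    exact sub_eq_zero.mp (G1 _ _ hxN e5)
  · rintro ⟨b, c, hbc⟩
    obtain ⟨p, q, hpq⟩ := Ideal.mem_span_pair.mp hfm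
    obtain ⟨r, s, hrs'⟩ := Ideal.mem_span_pair.mp hgm
    refine G3 ⟨ψ p * b + ψ r * c, ψ q * b + ψ s * c, ?_⟩
    rw [hbc, ← hpq, ← hrs', map_add, map_add, map_mul, map_mul, map_mul, map_mul]
    ring

end Pool.Agent.H408BCM.TH407
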