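import Pool.Agent.H408BCM.FinalG

namespace Pool.Agent.H408BCM.FG

open MvPolynomial Filter

theorem neg_mod (hN : TaskNG) (hS : TaskS) (hC : TaskC) (m w : ℕ) (hw : 6 * w < 4 * m + 3)
    (p : ℕ) (hp : p.Prime) (hpw : (w * p) % (4 * m + 3) = m + 1)
    (k : Type) [Field k] [CharP k p] : ¬ MapsToBCM m w k := by
  refine neg_part hN hS hC m w hw p ((w * p) / (4 * m + 3)) hp ?_ k
  have h := Nat.div_add_mod (w * p) (4 * m + 3)
  rw [hpw] at h
  omega

theorem neg_ultra (hN : TaskNG) (hS : TaskS) (hC : TaskC) (m w : ℕ) (hw : 6 * w < 4 * m + 3)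
    (U : Ultrafilter Nat.Primes)
    (hU : ∀ᶠ p : Nat.Primes in (U : Filter Nat.Primes), (w * (p : ℕ)) % (4 * m + 3) = m + 1) :
    ¬ ∀ᶠ p : Nat.Primes in (U : Filter Nat.Primes),
      ∃ (k : Type) (_ : Field k), CharP k (p : ℕ) ∧ MapsToBCM m w k := by
  intro h
  obtain ⟨p, hp1, k, i1, hk, hp2⟩ := (hU.and h).exists
  exact neg_mod hN hS hC m w hw (p : ℕ) p.2 hp1 k hp2

theorem inf_bad (m w : ℕ) (hco : Nat.Coprime w (4 * m + 3)) :
    {p : Nat.Primes | (w * (p : ℕ)) % (4 * m + 3) = m + 1}.Infinite := by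
  set n : ℕ := 4 * m + 3 with hn
  haveI : NeZero n := ⟨by omega⟩
  have hcop2 : Nat.Coprime (m + 1) n := by
    have h1 : Nat.Coprime (4 * (m + 1)) n := by
      have h2 : 4 * (m + 1) = 1 + n * 1 := by omega
      rw [h2]
      exact (Nat.coprime_add_mul_left_left 1 n 1).2 (Nat.coprime_one_left n)
    exact Nat.Coprime.coprime_mul_left h1
  obtain ⟨wu, hwu⟩ := (ZMod.isUnit_iff_coprime w n).2 hco
  have hu2 : IsUnit (((m + 1 : ℕ) : ZMod n)) := (ZMod.isUnit_iff_coprime _ n).2 hcop2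
  have ha : IsUnit ((m + 1 : ℕ) * (↑wu⁻¹ : ZMod n)) := hu2.mul wu⁻¹.isUnit
  have hinf := Nat.infinite_setOf_prime_and_eq_mod ha
  have himg : (fun p : Nat.Primes => (p : ℕ)) ''
      {p : Nat.Primes | (w * (p : ℕ)) % n = m + 1} ⊇
      {p : ℕ | p.Prime ∧ (p : ZMod n) = (m + 1 : ℕ) * (↑wu⁻¹ : ZMod n)} := by
    rintro q ⟨h1, h2⟩
    refine ⟨⟨q, h1⟩, ?_, rfl⟩
    have h4 : ((w * q : ℕ) : ZMod n) = ((m + 1 : ℕ) : ZMod n) := by
      push_cast
      rw [h2, ← hwu]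
      push_cast
      rw [mul_comm, mul_assoc]
      simp
    have h5 := (ZMod.natCast_eq_natCast_iff' _ _ _).1 h4
    show (w * q) % n = m + 1
    rw [h5]
    exact Nat.mod_eq_of_lt (by omega)
  exact Set.Infinite.of_image _ (hinf.mono himg)

theorem ex_ultra (m w : ℕ) (hco : Nat.Coprime w (4 * m + 3)) :
    ∃ U : Ultrafilter Nat.Primes, (U : Filter Nat.Primes) ≤ cofinite ∧
      ∀ᶠ p : Nat.Primes in (U : Filter Nat.Primes), (w * (p : ℕ)) % (4 * m + 3) = m + 1 := by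
  have h := inf_bad m w hco
  set G : Filter Nat.Primes :=
    cofinite ⊓ 𝓟 {p : Nat.Primes | (w * (p : ℕ)) % (4 * m + 3) = m + 1} with hG
  haveI hne : G.NeBot := (Filter.cofinite_inf_principal_neBot_iff).2 h
  refine ⟨Ultrafilter.of G, (Ultrafilter.of_le G).trans inf_le_left, ?_⟩
  exact ((Ultrafilter.of_le G).trans inf_le_right) (mem_principal_self _)

end Pool.Agent.H408BCM.FG
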