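import Pool.Agent.H408BCM.Ult

namespace Pool.Agent.H408BCM.V

open MvPolynomial Filter

/-- The local ring `R(k) = k[x,y]_{(x,y)}`. -/
def Rk (k : Type) [Field k] : Type := R k

noncomputable instance instRk (k : Type) [Field k] : CommRing (Rk k) := FG.instCommRingR k

instance instLocRk (k : Type) [Field k] : IsLocalRing (Rk k) :=
  inferInstanceAs (IsLocalRing (R k))

/-- the canonical map `k[x,y] → R(k)`. -/
noncomputable def toRk (k : Type) [Field k] : MvPolynomial (Fin 2) k →+* Rk k :=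
  algebraMap (A k) (R k)

/-- `x` in `R(k)` -/
noncomputable def xR (k : Type) [Field k] : Rk k := toRk k (X 0)

/-- `y` in `R(k)` -/
noncomputable def yR (k : Type) [Field k] : Rk k := toRk k (X 1)

/-- `R(k)[z,a,b,c]` -/
def P4 (k : Type) [Field k] : Type := MvPolynomial (Fin 4) (Rk k)

noncomputable instance instP4 (k : Type) [Field k] : CommRing (P4 k) :=
  inferInstanceAs (CommRing (MvPolynomial (Fin 4) (Rk k)))

noncomputable instance algP4 (k : Type) [Field k] : Algebra (Rk k) (P4 k) :=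
  inferInstanceAs (Algebra (Rk k) (MvPolynomial (Fin 4) (Rk k)))

/-- the variables `z, a, b, c` of `R(k)[z,a,b,c]` (numbers 0, 1, 2, 3). -/
noncomputable def var (k : Type) [Field k] (i : Fin 4) : P4 k := MvPolynomial.X (R := Rk k) i

/-- constants of `R(k)[z,a,b,c]`. -/
noncomputable def cst (k : Type) [Field k] (r : Rk k) : P4 k := MvPolynomial.C (R := Rk k) r

/-- `z^n - (x^n + y^n)` -/
noncomputable def gen1 (n : ℕ) (k : Type) [Field k] : P4 k :=
  var k 0 ^ n - cst k (xR k ^ n + yR k ^ n)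

/-- `a x^f + b y^f + c z^f` -/
noncomputable def lin (f : ℕ) (k : Type) [Field k] : P4 k :=
  var k 1 * cst k (xR k ^ f) + var k 2 * cst k (yR k ^ f) + var k 3 * var k 0 ^ f

/-- `x^e y^e - (a x^f + b y^f + c z^f)` -/
noncomputable def gen2 (e f : ℕ) (k : Type) [Field k] : P4 k :=
  cst k (xR k ^ e * yR k ^ e) - lin f k

/-- the ideal of relations -/
noncomputable def rel (n e f : ℕ) (k : Type) [Field k] : Ideal (P4 k) :=
  Ideal.span {gen1 n k, gen2 e f k}

/-- `S = R(k)[z,a,b,c]/(z^n - (x^n+y^n), x^e y^e - (a x^f + b y^f + c z^f))`. -/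
def Sk (n e f : ℕ) (k : Type) [Field k] : Type := P4 k ⧸ rel n e f k

noncomputable instance instSk (n e f : ℕ) (k : Type) [Field k] : CommRing (Sk n e f k) :=
  Ideal.Quotient.commRing (rel n e f k)

noncomputable instance algSk (n e f : ℕ) (k : Type) [Field k] : Algebra (Rk k) (Sk n e f k) :=
  Ideal.Quotient.algebra (Rk k)

/-- There is a big Cohen-Macaulay `R(k)`-algebra with a homomorphism of `R(k)`-algebras from
`S`, where `n = 4m+3`, `e = 3w`, `f = 4w`. -/
def Maps (m w : ℕ) (k : Type) [Field k] : Prop :=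
  ∃ (B : Type) (_ : CommRing B) (_ : Algebra (Rk k) B),
    IsBCM (Rk k) B ∧ Nonempty (Sk (4 * m + 3) (3 * w) (4 * w) k →ₐ[Rk k] B)

theorem maps_iff (m w : ℕ) (k : Type) [Field k] : Maps m w k ↔ FG.MapsToBCM m w k := Iff.rfl

/-- the congruence `w p ≡ m+1 mod 4m+3` -/
def Bad (m w p : ℕ) : Prop := (w * p) % (4 * m + 3) = m + 1

/-- `w p ≡ m+1 mod 4m+3` for almost all primes `p` with respect to the ultrafilter `U`. -/
def AlmostAllBad (U : Ultrafilter Nat.Primes) (m w : ℕ) : Prop :=
  ∀ᶠ p : Nat.Primes in (U : Filter Nat.Primes), Bad m w p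

/-- for almost all primes `p` with respect to `U` there is a field `k` of characteristic `p` such
that `S(k)` maps to a big Cohen-Macaulay `R(k)`-algebra. -/
def AlmostAllMaps (U : Ultrafilter Nat.Primes) (m w : ℕ) : Prop :=
  ∀ᶠ p : Nat.Primes in (U : Filter Nat.Primes),
    ∃ (k : Type) (_ : Field k), CharP k (p : ℕ) ∧ Maps m w k

end Pool.Agent.H408BCM.V
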